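import Mathlib

set_option autoImplicit false

/-!
# Portfolios for covering polyhedra under symmetric monotonic norms

Every nonempty closed set of nonnegative vectors in dimension `d` has, for every integer `b ≥ 2`, a
`2 b²`-approximate portfolio for all symmetric monotonic norms of size at most
`8 d ^ (log 4 / log b)`. In particular for every `c > 0` and `δ > 0` and all large `d` there is a
`(c log d)`-approximate portfolio of size below `d ^ δ`, for all covering polyhedra.
-/

namespace Pool.Agent.Results.MP_a76361_lc.SmallPortfolio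

open Finset Filter

/-- `P` is a (nonempty) covering polyhedron with `r` constraints in dimension `d`. -/
def IsCoveringPolyhedron {d : ℕ} (r : ℕ) (P : Set (Fin d → ℝ)) : Prop :=
  P.Nonempty ∧ ∃ (A : Fin r → Fin d → ℝ) (b : Fin r → ℝ),
    (∀ i j, 0 ≤ A i j) ∧ (∀ i, 0 ≤ b i) ∧
    P = {x | (∀ j, 0 ≤ x j) ∧ ∀ i, b i ≤ ∑ j, A i j * x j}

/-- `f` is a symmetric monotonic norm on `ℝ ^ d`. -/
structure IsSymMonoNorm {d : ℕ} (f : (Fin d → ℝ) → ℝ) : Prop where
  nonneg : ∀ x, 0 ≤ f x
  eq_zero : ∀ x, f x = 0 → x = 0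
  add_le : ∀ x y, f (x + y) ≤ f x + f y
  smul : ∀ (c : ℝ) x, f (c • x) = |c| * f x
  symm : ∀ (σ : Equiv.Perm (Fin d)) x, f (x ∘ σ) = f x
  mono : ∀ x y : Fin d → ℝ, (∀ i, 0 ≤ x i) → (∀ i, x i ≤ y i) → f x ≤ f y

/-- `X` is an `α`-approximate portfolio for `P` (for the class of all symmetric monotonic
norms). -/
def IsPortfolio {d : ℕ} (α : ℝ) (P : Set (Fin d → ℝ)) (X : Finset (Fin d → ℝ)) : Prop :=
  (∀ x ∈ X, x ∈ P) ∧
  ∀ f : (Fin d → ℝ) → ℝ, IsSymMonoNorm f → ∃ x ∈ X, ∀ y ∈ P, f x ≤ α * f y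

/-! ### Top-`k` sums -/

/-- The coordinates of `x` sorted in non-increasing order. -/
noncomputable def sortedDesc {d : ℕ} (x : Fin d → ℝ) : Fin d → ℝ :=
  fun k => x (Tuple.sort x (Fin.rev k))

/-- sum of the `k` largest coordinates -/
noncomputable def topk {d : ℕ} (x : Fin d → ℝ) (k : ℕ) : ℝ :=
  ∑ i ∈ univ.filter (fun i : Fin d => (i : ℕ) < k), sortedDesc x i

theorem antitone_sortedDesc {d : ℕ} (x : Fin d → ℝ) : Antitone (sortedDesc x) := by
  intro a b hab
  exact Tuple.monotone_sort x (Fin.rev_le_rev.mpr hab)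

theorem sum_sortedDesc {d : ℕ} (x : Fin d → ℝ) (f : ℝ → ℝ) :
    ∑ i, f (sortedDesc x i) = ∑ i, f (x i) := by
  have h := Equiv.sum_comp (Fin.revPerm.trans (Tuple.sort x)) (fun i => f (x i))
  simpa [sortedDesc] using h

theorem topk_eq {d : ℕ} (x : Fin d → ℝ) (k : ℕ) :
    ∃ S : Finset (Fin d), S.card ≤ k ∧ topk x k = ∑ i ∈ S, x i := by
  classical
  refine ⟨(univ.filter (fun i : Fin d => (i : ℕ) < k)).map
    (Fin.revPerm.trans (Tuple.sort x)).toEmbedding, ?_, ?_⟩
  · rw [card_map]
    calc (univ.filter (fun i : Fin d => (i : ℕ) < k)).card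
        = ((univ.filter (fun i : Fin d => (i : ℕ) < k)).image (fun i : Fin d => (i : ℕ))).card := by
          rw [card_image_of_injective _ Fin.val_injective]
      _ ≤ (range k).card := by
          apply card_le_card
          intro a ha
          simp only [mem_image, mem_filter, mem_univ, true_and] at ha
          obtain ⟨b, hb, rfl⟩ := ha
          exact mem_range.mpr hb
      _ = k := card_range k
  · rw [sum_map]
    rfl

theorem le_topk {d : ℕ} (x : Fin d → ℝ) (hx : ∀ i, 0 ≤ x i) (k : ℕ) (S : Finset (Fin d))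
    (hS : S.card ≤ k) : ∑ i ∈ S, x i ≤ topk x k := by
  classical
  rcases le_or_gt d k with hdk | hkd
  · have h1 : topk x k = ∑ i, x i := by
      unfold topk
      rw [filter_true_of_mem (fun i _ => lt_of_lt_of_le i.isLt hdk)]
      exact sum_sortedDesc x (fun t => t)
    rw [h1]
    exact sum_le_univ_sum_of_nonneg hx
  · rcases Nat.eq_zero_or_pos k with hk | hk
    · subst hk
      have : S = ∅ := card_eq_zero.mp (Nat.le_zero.mp hS)
      subst this
      simp [topk]
    · set t : ℝ := sortedDesc x ⟨k - 1, by omega⟩ with ht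
      have ht0 : 0 ≤ t := hx _
      have hcard : ((univ.filter (fun i : Fin d => (i : ℕ) < k)).card : ℝ) = k := by
        have : (univ.filter (fun i : Fin d => (i : ℕ) < k)).card = k := by
          have h2 : (univ.filter (fun i : Fin d => (i : ℕ) < k)) =
              (univ : Finset (Fin k)).map (Fin.castLEEmb hkd.le) := by
            ext i
            simp only [mem_filter, mem_univ, true_and, Finset.mem_map, Fin.castLEEmb_apply]
            constructor
            · intro h
              exact ⟨⟨i, h⟩, by ext; rfl⟩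
            · rintro ⟨a, rfl⟩
              exact a.isLt
          rw [h2, card_map, card_univ, Fintype.card_fin]
        exact_mod_cast this
      calc ∑ i ∈ S, x i ≤ ∑ i ∈ S, (t + max (x i - t) 0) := by
            apply sum_le_sum
            intro i _
            have := le_max_left (x i - t) 0
            linarith
        _ = S.card * t + ∑ i ∈ S, max (x i - t) 0 := by
            rw [sum_add_distrib, sum_const, nsmul_eq_mul]
        _ ≤ k * t + ∑ i, max (x i - t) 0 := by
            apply add_le_add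
            · exact mul_le_mul_of_nonneg_right (by exact_mod_cast hS) ht0
            · exact sum_le_univ_sum_of_nonneg (fun i => le_max_right _ _)
        _ = k * t + ∑ i, max (sortedDesc x i - t) 0 := by
            rw [sum_sortedDesc x (fun u => max (u - t) 0)]
        _ = k * t + ∑ i ∈ univ.filter (fun i : Fin d => (i : ℕ) < k), (sortedDesc x i - t) := by
            congr 1
            rw [← sum_filter_add_sum_filter_not univ (fun i : Fin d => (i : ℕ) < k)
              (fun i => max (sortedDesc x i - t) 0)]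
            have h2 : ∑ i ∈ univ.filter (fun i : Fin d => ¬ (i : ℕ) < k), max (sortedDesc x i - t) 0 = 0 := by
              apply sum_eq_zero
              intro i hi
              simp only [mem_filter, mem_univ, true_and, not_lt] at hi
              have : sortedDesc x i ≤ t := antitone_sortedDesc x (by
                rw [Fin.le_def]; simp; omega)
              exact max_eq_right (by linarith)
            rw [h2, add_zero]
            apply sum_congr rfl
            intro i hi
            simp only [mem_filter, mem_univ, true_and] at hi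
            have : t ≤ sortedDesc x i := antitone_sortedDesc x (by
              rw [Fin.le_def]; simp; omega)
            exact max_eq_left (by linarith)
        _ = topk x k := by
            rw [sum_sub_distrib, sum_const, nsmul_eq_mul, hcard]
            unfold topk
            ring

theorem topk_mono {d : ℕ} (x : Fin d → ℝ) (hx : ∀ i, 0 ≤ x i) {k l : ℕ} (h : k ≤ l) :
    topk x k ≤ topk x l := by
  obtain ⟨S, hS, hS'⟩ := topk_eq x k
  rw [hS']
  exact le_topk x hx l S (hS.trans h)

theorem sum_le_mul_topk {d : ℕ} (x : Fin d → ℝ) (hx : ∀ i, 0 ≤ x i) (k : ℕ) (b : ℕ) :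
    ∀ S : Finset (Fin d), S.card ≤ b * k → ∑ i ∈ S, x i ≤ b * topk x k := by
  classical
  induction b with
  | zero =>
    intro S hS
    have : S = ∅ := card_eq_zero.mp (by omega)
    subst this
    simp
  | succ b ih =>
    intro S hS
    obtain ⟨T, hTS, hT⟩ := exists_subset_card_eq (min_le_left S.card k)
    have h1 : ∑ i ∈ T, x i ≤ topk x k := le_topk x hx k T (by rw [hT]; exact min_le_right _ _)
    have h2 : (S \ T).card ≤ b * k := by
      rw [card_sdiff_of_subset hTS, hT]
      have : (b + 1) * k = b * k + k := by ring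
      omega
    have h3 := ih (S \ T) h2
    have h4 : ∑ i ∈ S, x i = ∑ i ∈ S \ T, x i + ∑ i ∈ T, x i := (sum_sdiff hTS).symm
    rw [h4]
    push_cast
    linarith

theorem topk_mul_le {d : ℕ} (x : Fin d → ℝ) (hx : ∀ i, 0 ≤ x i) {k l b : ℕ} (h : l ≤ b * k) :
    topk x l ≤ b * topk x k := by
  obtain ⟨S, hS, hS'⟩ := topk_eq x l
  rw [hS']
  exact sum_le_mul_topk x hx k b S (hS.trans h)

/-! ### Domination of all top-`k` norms is domination of all symmetric monotonic norms -/

theorem abel {d : ℕ} (w z : Fin d → ℝ) :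
    ∑ i, w i * z i = ∑ k ∈ range d,
      ((if h : k < d then w ⟨k, h⟩ else 0) - (if h : k + 1 < d then w ⟨k + 1, h⟩ else 0)) *
        ∑ i ∈ univ.filter (fun i : Fin d => (i : ℕ) < k + 1), z i := by
  set w' : ℕ → ℝ := fun k => if h : k < d then w ⟨k, h⟩ else 0 with hw'
  have h1 : ∀ i : Fin d, w i = ∑ k ∈ (range d).filter (fun k => (i : ℕ) < k + 1), (w' k - w' (k + 1)) := by
    intro i
    have h2 : (range d).filter (fun k => (i : ℕ) < k + 1) = Ico (i : ℕ) d := by
      ext k
      simp only [mem_filter, mem_range, mem_Ico]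
      omega
    rw [h2]
    have h3 : ∑ k ∈ Ico (i : ℕ) d, (w' k - w' (k + 1)) = w' i - w' d := by
      rw [Finset.sum_Ico_eq_sum_range]
      have h4 := Finset.sum_range_sub' (fun k => w' (i + k)) (d - i)
      have h5 : (i : ℕ) + (d - i) = d := by have := i.isLt; omega
      simp only [h5, Nat.add_zero] at h4
      rw [← h4]
      apply sum_congr rfl
      intro k _
      rw [Nat.add_assoc]
    rw [h3]
    simp [hw']
  calc ∑ i, w i * z i
      = ∑ i : Fin d, ∑ k ∈ range d,
          (if (i : ℕ) < k + 1 then (w' k - w' (k + 1)) * z i else 0) := by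
        apply sum_congr rfl
        intro i _
        rw [h1 i, sum_mul, sum_filter]
    _ = ∑ k ∈ range d, ∑ i : Fin d, (if (i : ℕ) < k + 1 then (w' k - w' (k + 1)) * z i else 0) :=
        sum_comm
    _ = _ := by
        apply sum_congr rfl
        intro k _
        rw [mul_sum, sum_filter]

/-- A supporting functional of a symmetric monotonic norm. -/
theorem exists_support {d : ℕ} {f : (Fin d → ℝ) → ℝ} (hf : IsSymMonoNorm f) (x : Fin d → ℝ)
    (hx : ∀ i, 0 ≤ x i) (hx0 : x ≠ 0) :
    ∃ g : Fin d → ℝ, (∀ i, 0 ≤ g i) ∧ f x ≤ ∑ i, g i * x i ∧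
      ∀ z : Fin d → ℝ, (∀ i, 0 ≤ z i) → ∑ i, g i * z i ≤ f z := by
  classical
  obtain ⟨g, hg1, hg2⟩ := exists_extension_of_le_sublinear
    (LinearPMap.mkSpanSingleton x (f x) hx0) f
    (fun c hc y => by rw [hf.smul, abs_of_pos hc]) hf.add_le (by
      rintro ⟨y, hy⟩
      obtain ⟨c, rfl⟩ := Submodule.mem_span_singleton.mp hy
      have h1 := LinearPMap.mkSpanSingleton'_apply (σ := RingHom.id ℝ) x (f x)
        (fun c hc => (smul_eq_zero.1 hc).elim (fun hc => by rw [hc, RingHom.map_zero, zero_smul])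
          fun hx' => absurd hx' hx0) c hy
      refine (le_of_eq h1).trans ?_
      show (RingHom.id ℝ) c • f x ≤ f (c • x)
      simp only [smul_eq_mul, hf.smul, RingHom.id_apply]
      exact mul_le_mul_of_nonneg_right (le_abs_self c) (hf.nonneg x))
  have hgx : g x = f x := by
    have h1 := hg1 ⟨x, Submodule.mem_span_singleton_self x⟩
    rw [h1]
    exact LinearPMap.mkSpanSingleton_apply ℝ ℝ hx0 (f x)
  have hgsum : ∀ z : Fin d → ℝ, g z = ∑ i, g (Pi.single i 1) * z i := by
    intro z
    conv_lhs => rw [← Finset.univ_sum_single z]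
    rw [map_sum]
    apply sum_congr rfl
    intro i _
    have : (Pi.single i (z i) : Fin d → ℝ) = z i • (Pi.single i 1 : Fin d → ℝ) := by
      ext j
      by_cases h : j = i
      · subst h; simp
      · simp [h]
    rw [this, map_smul, smul_eq_mul, mul_comm]
  refine ⟨fun i => max (g (Pi.single i 1)) 0, fun i => le_max_right _ _, ?_, ?_⟩
  · rw [← hgx, hgsum x]
    apply sum_le_sum
    intro i _
    exact mul_le_mul_of_nonneg_right (le_max_left _ _) (hx i)
  · intro z hz
    have h1 : ∑ i, max (g (Pi.single i 1)) 0 * z i =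
        g (fun i => if 0 < g (Pi.single i 1) then z i else 0) := by
      rw [hgsum]
      apply sum_congr rfl
      intro i _
      split_ifs with h
      · rw [max_eq_left h.le]
      · rw [max_eq_right (not_lt.mp h)]; simp
    rw [h1]
    refine (hg2 _).trans (hf.mono _ _ ?_ ?_)
    · intro i
      split_ifs
      · exact hz i
      · exact le_refl _
    · intro i
      split_ifs
      · exact le_refl _
      · exact hz i

theorem norm_le_of_topk_le {d : ℕ} {f : (Fin d → ℝ) → ℝ} (hf : IsSymMonoNorm f) (x y : Fin d → ℝ)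
    (hx : ∀ i, 0 ≤ x i) (hy : ∀ i, 0 ≤ y i) (a : ℝ) (ha : 0 ≤ a)
    (h : ∀ k, 1 ≤ k → k ≤ d → topk x k ≤ a * topk y k) : f x ≤ a * f y := by
  classical
  by_cases hx0 : x = 0
  · subst hx0
    have h0 : f 0 = 0 := by
      have := hf.smul 0 0
      simpa using this
    rw [h0]
    exact mul_nonneg ha (hf.nonneg y)
  obtain ⟨g, hg0, hgx, hgz⟩ := exists_support hf x hx hx0
  -- sort g in decreasing order
  set τ : Equiv.Perm (Fin d) := Fin.revPerm.trans (Tuple.sort g) with hτ
  have hanti : Antitone (g ∘ τ) := by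
    intro i j hij
    exact Tuple.monotone_sort g (Fin.rev_le_rev.mpr hij)
  set ρ : Equiv.Perm (Fin d) := Fin.revPerm.trans (Tuple.sort y) with hρ
  have h1 : ∑ i, g i * x i = ∑ i, (g ∘ τ) i * (x ∘ τ) i :=
    (Equiv.sum_comp τ (fun i => g i * x i)).symm
  have h2 : ∑ i, (g ∘ τ) i * (x ∘ τ) i ≤ a * ∑ i, (g ∘ τ) i * (y ∘ ρ) i := by
    rw [abel, abel, mul_sum]
    apply sum_le_sum
    intro k hk
    have hkd : k < d := mem_range.mp hk
    have hc : 0 ≤ ((if h : k < d then (g ∘ τ) ⟨k, h⟩ else 0) -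
        (if h : k + 1 < d then (g ∘ τ) ⟨k + 1, h⟩ else 0)) := by
      rw [dif_pos hkd]
      split_ifs with h3
      · have : (g ∘ τ) ⟨k + 1, h3⟩ ≤ (g ∘ τ) ⟨k, hkd⟩ := hanti (by
          rw [Fin.le_def]; simp)
        linarith
      · have := hg0 (τ ⟨k, hkd⟩)
        simp only [Function.comp_apply, sub_zero]
        exact this
    have h3 : ∑ i ∈ univ.filter (fun i : Fin d => (i : ℕ) < k + 1), (x ∘ τ) i ≤ topk x (k + 1) := by
      have h4 : ∑ i ∈ univ.filter (fun i : Fin d => (i : ℕ) < k + 1), (x ∘ τ) i =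
          ∑ i ∈ (univ.filter (fun i : Fin d => (i : ℕ) < k + 1)).map τ.toEmbedding, x i := by
        rw [sum_map]; rfl
      rw [h4]
      apply le_topk x hx
      rw [card_map]
      have h5 : univ.filter (fun i : Fin d => (i : ℕ) < k + 1) =
          (univ : Finset (Fin (k + 1))).map (Fin.castLEEmb hkd) := by
        ext i
        simp only [mem_filter, mem_univ, true_and, Finset.mem_map, Fin.castLEEmb_apply]
        constructor
        · intro h
          exact ⟨⟨i, h⟩, by ext; rfl⟩
        · rintro ⟨b, rfl⟩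
          exact b.isLt
      rw [h5, card_map, card_univ, Fintype.card_fin]
    have h6 : ∑ i ∈ univ.filter (fun i : Fin d => (i : ℕ) < k + 1), (y ∘ ρ) i = topk y (k + 1) :=
      rfl
    rw [h6]
    have h7 := h (k + 1) (by omega) (by omega)
    have h8 := mul_le_mul_of_nonneg_left (h3.trans h7) hc
    calc _ ≤ _ := h8
      _ = _ := by ring
  have h9 : ∑ i, (g ∘ τ) i * (y ∘ ρ) i = ∑ i, g i * (y ∘ (ρ * τ⁻¹)) i := by
    rw [← Equiv.sum_comp τ (fun i => g i * (y ∘ (ρ * τ⁻¹)) i)]
    apply sum_congr rfl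
    intro i _
    simp
  have h10 : ∑ i, g i * (y ∘ (ρ * τ⁻¹)) i ≤ f y := by
    rw [← hf.symm (ρ * τ⁻¹) y]
    exact hgz _ (fun i => hy _)
  calc f x ≤ ∑ i, g i * x i := hgx
    _ ≤ a * ∑ i, (g ∘ τ) i * (y ∘ ρ) i := by rw [h1]; exact h2
    _ ≤ a * f y := by
        rw [h9]
        exact mul_le_mul_of_nonneg_left h10 ha

/-! ### The construction -/

theorem norm_le_topk_one {d : ℕ} (y : Fin d → ℝ) (hy : ∀ i, 0 ≤ y i) : ‖y‖ ≤ topk y 1 := by
  have h0 : 0 ≤ topk y 1 := by
    have := le_topk y hy 1 ∅ (by simp)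
    simpa using this
  rw [pi_norm_le_iff_of_nonneg h0]
  intro i
  rw [Real.norm_eq_abs, abs_of_nonneg (hy i)]
  have := le_topk y hy 1 {i} (by simp)
  simpa using this

theorem topk_le_norm {d : ℕ} (y : Fin d → ℝ) (k : ℕ) : topk y k ≤ k * ‖y‖ := by
  obtain ⟨S, hS, hS'⟩ := topk_eq y k
  rw [hS']
  calc ∑ i ∈ S, y i ≤ ∑ i ∈ S, ‖y‖ :=
        sum_le_sum (fun i _ => (le_abs_self _).trans (norm_le_pi_norm y i))
    _ = S.card * ‖y‖ := by rw [sum_const, nsmul_eq_mul]
    _ ≤ k * ‖y‖ := mul_le_mul_of_nonneg_right (by exact_mod_cast hS) (norm_nonneg _)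

theorem exists_near_min {d : ℕ} (P : Set (Fin d → ℝ)) (hne : P.Nonempty)
    (hP : ∀ x ∈ P, ∀ i, 0 ≤ x i) (M : ℝ) (hM : 0 < M) (hPM : ∀ x ∈ P, M ≤ ‖x‖)
    (f : (Fin d → ℝ) → ℝ) (hf : IsSymMonoNorm f) :
    ∃ y₀ ∈ P, ∀ y ∈ P, f y₀ ≤ 2 * f y := by
  classical
  have hex : ∀ x ∈ P, ∃ i, M ≤ x i := by
    intro x hx
    by_contra hcon
    push Not at hcon
    have : ‖x‖ < M := by
      rw [pi_norm_lt_iff hM]
      intro i
      rw [Real.norm_eq_abs, abs_of_nonneg (hP x hx i)]
      exact hcon i
    linarith [hPM x hx]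
  obtain ⟨x₀, hx₀⟩ := hne
  obtain ⟨i₀, -⟩ := hex x₀ hx₀
  obtain ⟨i₁, -, hi₁⟩ := exists_min_image (univ : Finset (Fin d))
    (fun i => f (Pi.single i 1)) ⟨i₀, mem_univ _⟩
  set κ : ℝ := f (Pi.single i₁ 1) with hκ
  have hκpos : 0 < κ := by
    rcases (hf.nonneg (Pi.single i₁ 1)).lt_or_eq with h | h
    · exact h
    · exfalso
      have h1 := hf.eq_zero _ h.symm
      have h2 := congrFun h1 i₁
      simp at h2
  have hlow : ∀ y ∈ P, M * κ ≤ f y := by
    intro y hy
    obtain ⟨i, hi⟩ := hex y hy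
    have h1 : f (M • (Pi.single i 1 : Fin d → ℝ)) ≤ f y := by
      apply hf.mono
      · intro j
        by_cases h : j = i
        · subst h; simp [hM.le]
        · simp [h]
      · intro j
        by_cases h : j = i
        · subst h; simpa using hi
        · simp [h, hP y hy j]
    rw [hf.smul, abs_of_pos hM] at h1
    calc M * κ ≤ M * f (Pi.single i 1) := mul_le_mul_of_nonneg_left (hi₁ i (mem_univ _)) hM.le
      _ ≤ f y := h1
  have hbdd : BddBelow (f '' P) := ⟨0, by
    rintro _ ⟨y, -, rfl⟩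
    exact hf.nonneg y⟩
  have hm : M * κ ≤ sInf (f '' P) := by
    apply le_csInf (⟨f x₀, Set.mem_image_of_mem f hx₀⟩ : (f '' P).Nonempty)
    rintro _ ⟨y, hy, rfl⟩
    exact hlow y hy
  have hmpos : 0 < sInf (f '' P) := lt_of_lt_of_le (mul_pos hM hκpos) hm
  obtain ⟨_, ⟨y₀, hy₀, rfl⟩, hlt⟩ := exists_lt_of_csInf_lt
    (⟨f x₀, Set.mem_image_of_mem f hx₀⟩ : (f '' P).Nonempty)
    (show sInf (f '' P) < 2 * sInf (f '' P) by linarith)
  refine ⟨y₀, hy₀, fun y hy => ?_⟩
  have := csInf_le hbdd (Set.mem_image_of_mem f hy)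
  linarith

/-- the rounded profile -/
noncomputable def prof {d : ℕ} (b : ℕ) (M : ℝ) (y : Fin d → ℝ) (j : ℕ) : ℤ :=
  Int.log b (topk y (b ^ j) / M)

noncomputable def code {d : ℕ} (b K : ℕ) (M : ℝ) (y : Fin d → ℝ) : ℤ × Finset ℕ :=
  (prof b M y 0, (range K).filter (fun j => prof b M y (j + 1) = prof b M y j + 1))

theorem exists_portfolio {d : ℕ} (hd : 1 ≤ d) (b : ℕ) (hb : 2 ≤ b) (P : Set (Fin d → ℝ))
    (hne : P.Nonempty) (hcl : IsClosed P) (hP : ∀ x ∈ P, ∀ i, 0 ≤ x i) :
    ∃ X : Finset (Fin d → ℝ), IsPortfolio (2 * (b : ℝ) ^ 2) P X ∧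
      X.card ≤ (Nat.clog b d + 1) * 2 ^ (Nat.clog b d) + 1 := by
  classical
  have hb1 : 1 < b := hb
  have hbR : (2 : ℝ) ≤ b := by exact_mod_cast hb
  set K := Nat.clog b d with hK
  by_cases h0 : (0 : Fin d → ℝ) ∈ P
  · refine ⟨{0}, ⟨?_, ?_⟩, ?_⟩
    · intro x hx
      rw [Finset.mem_singleton] at hx
      subst hx
      exact h0
    · intro f hf
      refine ⟨0, Finset.mem_singleton_self _, fun y _ => ?_⟩
      have h1 : f 0 = 0 := by simpa using hf.smul 0 0
      rw [h1]
      have := hf.nonneg y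
      positivity
    · rw [card_singleton]
      exact Nat.le_add_left _ _
  · set M := Metric.infDist (0 : Fin d → ℝ) P with hMdef
    have hM : 0 < M := (hcl.notMem_iff_infDist_pos hne).mp h0
    have hPM : ∀ x ∈ P, M ≤ ‖x‖ := by
      intro x hx
      have := Metric.infDist_le_dist_of_mem (x := (0 : Fin d → ℝ)) hx
      rwa [dist_zero_left] at this
    obtain ⟨xs, hxs, hxsM⟩ := (Metric.infDist_lt_iff (x := (0 : Fin d → ℝ)) (s := P) hne).mp
      (show Metric.infDist (0 : Fin d → ℝ) P < 2 * M by rw [← hMdef]; linarith)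
    rw [dist_zero_left] at hxsM
    have hT1 : ∀ y ∈ P, M ≤ topk y 1 := fun y hy =>
      (hPM y hy).trans (norm_le_topk_one y (hP y hy))
    have hTM : ∀ y ∈ P, ∀ j, M ≤ topk y (b ^ j) := fun y hy j =>
      (hT1 y hy).trans (topk_mono y (hP y hy) (Nat.one_le_pow _ _ (by omega)))
    -- bounds from the profile
    have hlo : ∀ y ∈ P, ∀ j, (b : ℝ) ^ (prof b M y j) ≤ topk y (b ^ j) / M := fun y hy j =>
      Int.zpow_log_le_self hb1 (div_pos (lt_of_lt_of_le hM (hTM y hy j)) hM)
    have hhi : ∀ y : Fin d → ℝ, ∀ j, topk y (b ^ j) / M < (b : ℝ) ^ (prof b M y j + 1) := fun y j =>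
      Int.lt_zpow_succ_log_self hb1 _
    have hbR1 : (1 : ℝ) < b := by linarith
    have hstep : ∀ y ∈ P, ∀ j, prof b M y (j + 1) = prof b M y j ∨
        prof b M y (j + 1) = prof b M y j + 1 := by
      intro y hy j
      have h1 : prof b M y j ≤ prof b M y (j + 1) := by
        apply Int.log_mono_right (div_pos (lt_of_lt_of_le hM (hTM y hy j)) hM)
        apply div_le_div_of_nonneg_right _ hM.le
        exact topk_mono y (hP y hy) (Nat.pow_le_pow_right (by omega) (by omega))
      have h2 : prof b M y (j + 1) < prof b M y j + 2 := by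
        have h3 := hlo y hy (j + 1)
        have h4 := hhi y j
        have h5 : topk y (b ^ (j + 1)) ≤ b * topk y (b ^ j) :=
          topk_mul_le y (hP y hy) (by rw [pow_succ]; exact (Nat.mul_comm _ _).le)
        have h6 : (b : ℝ) ^ (prof b M y (j + 1)) < (b : ℝ) ^ (prof b M y j + 2) := by
          calc (b : ℝ) ^ (prof b M y (j + 1)) ≤ topk y (b ^ (j + 1)) / M := h3
            _ ≤ b * topk y (b ^ j) / M := div_le_div_of_nonneg_right h5 hM.le
            _ = b * (topk y (b ^ j) / M) := by ring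
            _ < b * (b : ℝ) ^ (prof b M y j + 1) := by
                apply mul_lt_mul_of_pos_left h4 (by linarith)
            _ = (b : ℝ) ^ (prof b M y j + 2) := by
                rw [show prof b M y j + 2 = 1 + (prof b M y j + 1) by ring,
                  zpow_add₀ (by linarith : (b : ℝ) ≠ 0) 1, zpow_one]
        exact (zpow_lt_zpow_iff_right₀ hbR1).mp h6
      omega
    have hcode : ∀ x ∈ P, ∀ y ∈ P, code b K M x = code b K M y → ∀ j ≤ K,
        prof b M x j = prof b M y j := by
      intro x hx y hy hxy j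
      have hxy1 : prof b M x 0 = prof b M y 0 := congrArg Prod.fst hxy
      have hxy2 : (range K).filter (fun j => prof b M x (j + 1) = prof b M x j + 1) =
        (range K).filter (fun j => prof b M y (j + 1) = prof b M y j + 1) :=
        congrArg Prod.snd hxy
      induction j with
      | zero => intro _; exact hxy1
      | succ j ih =>
        intro hj
        have h1 := ih (by omega)
        have h2 : prof b M x (j + 1) = prof b M x j + 1 ↔
            prof b M y (j + 1) = prof b M y j + 1 := by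
          have h3 := Finset.ext_iff.mp hxy2 j
          simp only [mem_filter, mem_range] at h3
          have hjK : j < K := by omega
          simpa [hjK] using h3
        rcases hstep x hx j with h4 | h4 <;> rcases hstep y hy j with h5 | h5
        · omega
        · have := h2.mpr h5; omega
        · have := h2.mp h4; omega
        · omega
    set I : Finset (ℤ × Finset ℕ) := (Finset.Icc (0 : ℤ) K) ×ˢ (range K).powerset with hI
    have hIcard : I.card = (K + 1) * 2 ^ K := by
      rw [hI, card_product, card_powerset, card_range, Int.card_Icc]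
      congr 1
    set Good : (Fin d → ℝ) → Prop := fun y => y ∈ P ∧ topk y 1 < d * M with hGood
    have hdK : d ≤ b ^ K := Nat.le_pow_clog hb1 d
    have hcodeI : ∀ y, Good y → code b K M y ∈ I := by
      rintro y ⟨hy, hyd⟩
      rw [hI, Finset.mem_product, Finset.mem_Icc, Finset.mem_powerset]
      refine ⟨⟨?_, ?_⟩, filter_subset _ _⟩
      · show 0 ≤ prof b M y 0
        have h1 : (b : ℝ) ^ (0 : ℤ) < (b : ℝ) ^ (prof b M y 0 + 1) := by
          rw [zpow_zero]
          refine lt_of_le_of_lt ?_ (hhi y 0)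
          rw [le_div_iff₀ hM, one_mul]
          exact hTM y hy 0
        have h2 := (zpow_lt_zpow_iff_right₀ hbR1).mp h1
        omega
      · show prof b M y 0 ≤ K
        have h1 : (b : ℝ) ^ (prof b M y 0) < (b : ℝ) ^ (K : ℤ) := by
          refine lt_of_le_of_lt (hlo y hy 0) ?_
          rw [div_lt_iff₀ hM, zpow_natCast]
          have h3 : topk y (b ^ 0) < d * M := by simpa using hyd
          refine lt_of_lt_of_le h3 ?_
          apply mul_le_mul_of_nonneg_right _ hM.le
          exact_mod_cast hdK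
        exact ((zpow_lt_zpow_iff_right₀ hbR1).mp h1).le
    set rep : ℤ × Finset ℕ → (Fin d → ℝ) := fun p =>
      if h : ∃ y, Good y ∧ code b K M y = p then Classical.choose h else xs with hrep
    have hrepP : ∀ p, rep p ∈ P := by
      intro p
      simp only [hrep]
      split_ifs with h
      · exact (Classical.choose_spec h).1.1
      · exact hxs
    refine ⟨insert xs (I.image rep), ⟨?_, ?_⟩, ?_⟩
    · intro x hx
      rw [Finset.mem_insert, Finset.mem_image] at hx
      rcases hx with rfl | ⟨p, -, rfl⟩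
      · exact hxs
      · exact hrepP p
    · intro f hf
      obtain ⟨y₀, hy₀, hmin⟩ := exists_near_min P hne hP M hM hPM f hf
      have hf0 := hf.nonneg y₀
      have hb4 : (4 : ℝ) ≤ (b : ℝ) ^ 2 := by nlinarith
      by_cases hbig : (d : ℝ) * M ≤ topk y₀ 1
      · refine ⟨xs, Finset.mem_insert_self _ _, fun y hy => ?_⟩
        have h1 : f xs ≤ 2 * f y₀ := by
          apply norm_le_of_topk_le hf xs y₀ (hP xs hxs) (hP y₀ hy₀) 2 (by norm_num)
          intro k hk1 hkd
          calc topk xs k ≤ k * ‖xs‖ := topk_le_norm xs k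
            _ ≤ d * (2 * M) := by
                apply mul_le_mul (by exact_mod_cast hkd) hxsM.le (norm_nonneg _) (by positivity)
            _ = 2 * (d * M) := by ring
            _ ≤ 2 * topk y₀ 1 := by linarith
            _ ≤ 2 * topk y₀ k := by
                have := topk_mono y₀ (hP y₀ hy₀) hk1
                linarith
        have h2 := hmin y hy
        have h3 := hf.nonneg y
        nlinarith
      · have hgood : Good y₀ := ⟨hy₀, not_le.mp hbig⟩
        have hex : ∃ y, Good y ∧ code b K M y = code b K M y₀ := ⟨y₀, hgood, rfl⟩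
        refine ⟨rep (code b K M y₀), ?_, fun y hy => ?_⟩
        · apply Finset.mem_insert_of_mem
          exact Finset.mem_image_of_mem _ (hcodeI y₀ hgood)
        · have hrep' : rep (code b K M y₀) = Classical.choose hex := by
            simp only [hrep]
            rw [dif_pos hex]
          have hspec := Classical.choose_spec hex
          rw [← hrep'] at hspec
          set x := rep (code b K M y₀) with hx
          obtain ⟨⟨hxP, -⟩, hxc⟩ := hspec
          have h1 : f x ≤ (b : ℝ) ^ 2 * f y₀ := by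
            apply norm_le_of_topk_le hf x y₀ (hP x hxP) (hP y₀ hy₀) _ (by positivity)
            intro k hk1 hkd
            set j := Nat.log b k with hj
            have hj1 : b ^ j ≤ k := Nat.pow_log_le_self b (by omega)
            have hj2 : k < b ^ (j + 1) := Nat.lt_pow_succ_log_self hb1 k
            have hjK : j ≤ K := by
              have : b ^ j ≤ b ^ K := hj1.trans (hkd.trans hdK)
              exact (Nat.pow_le_pow_iff_right hb1).mp this
            have h2 : topk x k ≤ b * topk x (b ^ j) :=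
              topk_mul_le x (hP x hxP) (by rw [pow_succ] at hj2; rw [Nat.mul_comm]; exact hj2.le)
            have h3 := hcode x hxP y₀ hy₀ hxc j hjK
            have h4 := hhi x j
            have h5 := hlo y₀ hy₀ j
            rw [h3, zpow_add₀ (by linarith : (b : ℝ) ≠ 0), zpow_one] at h4
            have h6 : topk x (b ^ j) / M ≤ (topk y₀ (b ^ j) / M) * b := by
              refine h4.le.trans ?_
              exact mul_le_mul_of_nonneg_right h5 (by linarith)
            have h7 : topk x (b ^ j) ≤ b * topk y₀ (b ^ j) := by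
              rw [div_le_iff₀ hM] at h6
              calc topk x (b ^ j) ≤ topk y₀ (b ^ j) / M * b * M := h6
                _ = b * topk y₀ (b ^ j) := by
                    field_simp
            have h8 : topk y₀ (b ^ j) ≤ topk y₀ k := topk_mono y₀ (hP y₀ hy₀) hj1
            calc topk x k ≤ b * topk x (b ^ j) := h2
              _ ≤ b * (b * topk y₀ (b ^ j)) := mul_le_mul_of_nonneg_left h7 (by linarith)
              _ ≤ b * (b * topk y₀ k) := by
                  apply mul_le_mul_of_nonneg_left _ (by linarith)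
                  exact mul_le_mul_of_nonneg_left h8 (by linarith)
              _ = (b : ℝ) ^ 2 * topk y₀ k := by ring
          have h2 := hmin y hy
          calc f x ≤ (b : ℝ) ^ 2 * f y₀ := h1
            _ ≤ (b : ℝ) ^ 2 * (2 * f y) := mul_le_mul_of_nonneg_left h2 (by positivity)
            _ = 2 * (b : ℝ) ^ 2 * f y := by ring
    · calc (insert xs (I.image rep)).card ≤ (I.image rep).card + 1 := card_insert_le _ _
        _ ≤ I.card + 1 := by
            have := card_image_le (s := I) (f := rep)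
            omega
        _ = _ := by rw [hIcard]

theorem count_bound (b d : ℕ) (hb : 2 ≤ b) (hd : 1 ≤ d) :
    (((Nat.clog b d + 1) * 2 ^ (Nat.clog b d) + 1 : ℕ) : ℝ) ≤
      8 * (d : ℝ) ^ (Real.log 4 / Real.log b) := by
  have hbR : (2 : ℝ) ≤ b := by exact_mod_cast hb
  have hdR : (1 : ℝ) ≤ d := by exact_mod_cast hd
  have hlogb : 0 < Real.log b := Real.log_pos (by linarith)
  have hlog4 : 0 < Real.log 4 := Real.log_pos (by norm_num)
  set e := Real.log 4 / Real.log b with he
  have he0 : 0 < e := div_pos hlog4 hlogb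
  have hbe : (b : ℝ) ^ e = 4 := by
    rw [Real.rpow_def_of_pos (by linarith), he]
    rw [show Real.log b * (Real.log 4 / Real.log b) = Real.log 4 by field_simp]
    exact Real.exp_log (by norm_num)
  set K := Nat.clog b d with hK
  have h1 : K + 1 ≤ 2 ^ K := Nat.lt_two_pow_self
  have h2 : (K + 1) * 2 ^ K + 1 ≤ 2 * 4 ^ K := by
    have h3 : (K + 1) * 2 ^ K ≤ 2 ^ K * 2 ^ K := Nat.mul_le_mul_right _ h1
    have h4 : 2 ^ K * 2 ^ K = 4 ^ K := by
      rw [← Nat.mul_pow]
    have h5 : 1 ≤ 4 ^ K := Nat.one_le_pow _ _ (by norm_num)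
    omega
  have h3 : ((4 : ℝ)) ^ K ≤ 4 * (d : ℝ) ^ e := by
    rcases Nat.eq_zero_or_pos K with hK0 | hKpos
    · rw [hK0, pow_zero]
      have : 1 ≤ (d : ℝ) ^ e := Real.one_le_rpow hdR he0.le
      linarith
    · have hd1 : 1 < d := by
        by_contra hcon
        have : d = 1 := by omega
        subst this
        simp [hK] at hKpos
      have h4 : b ^ (K - 1) < d := by
        have := Nat.pow_pred_clog_lt_self (b := b) (by omega) hd1
        simpa [hK] using this
      have h5 : ((b : ℝ)) ^ (K - 1) ≤ d := by exact_mod_cast h4.le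
      have h6 : (4 : ℝ) ^ (K - 1) ≤ (d : ℝ) ^ e := by
        calc (4 : ℝ) ^ (K - 1) = ((b : ℝ) ^ (K - 1)) ^ e := by
              rw [← hbe, ← Real.rpow_natCast, ← Real.rpow_natCast, ← Real.rpow_mul (by linarith),
                ← Real.rpow_mul (by linarith), mul_comm]
          _ ≤ (d : ℝ) ^ e := Real.rpow_le_rpow (by positivity) h5 he0.le
      calc (4 : ℝ) ^ K = 4 * 4 ^ (K - 1) := by
            rw [← pow_succ']
            congr 1
            omega
        _ ≤ 4 * (d : ℝ) ^ e := by linarith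
  calc (((K + 1) * 2 ^ K + 1 : ℕ) : ℝ) ≤ ((2 * 4 ^ K : ℕ) : ℝ) := by exact_mod_cast h2
    _ = 2 * (4 : ℝ) ^ K := by push_cast; ring
    _ ≤ 8 * (d : ℝ) ^ e := by linarith

theorem general (b : ℕ) (hb : 2 ≤ b) (d : ℕ) (hd : 1 ≤ d) (P : Set (Fin d → ℝ))
    (hne : P.Nonempty) (hcl : IsClosed P) (hP : ∀ x ∈ P, ∀ i, 0 ≤ x i) :
    ∃ X : Finset (Fin d → ℝ), IsPortfolio (2 * (b : ℝ) ^ 2) P X ∧
      (X.card : ℝ) ≤ 8 * (d : ℝ) ^ (Real.log 4 / Real.log b) := by
  obtain ⟨X, hX, hXc⟩ := exists_portfolio hd b hb P hne hcl hP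
  exact ⟨X, hX, le_trans (by exact_mod_cast hXc) (count_bound b d hb hd)⟩

theorem IsPortfolio.mono {d : ℕ} {α β : ℝ} {P : Set (Fin d → ℝ)} {X : Finset (Fin d → ℝ)}
    (h : IsPortfolio α P X) (hαβ : α ≤ β) : IsPortfolio β P X := by
  refine ⟨h.1, fun f hf => ?_⟩
  obtain ⟨x, hx, hxy⟩ := h.2 f hf
  exact ⟨x, hx, fun y hy => (hxy y hy).trans (mul_le_mul_of_nonneg_right hαβ (hf.nonneg y))⟩

theorem eventually_small (c : ℝ) (hc : 0 < c) (δ : ℝ) (hδ : 0 < δ) :
    ∀ᶠ d : ℕ in atTop, ∀ P : Set (Fin d → ℝ), P.Nonempty → IsClosed P →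
      (∀ x ∈ P, ∀ i, 0 ≤ x i) →
        ∃ X : Finset (Fin d → ℝ), IsPortfolio (c * Real.log d) P X ∧ (X.card : ℝ) < (d : ℝ) ^ δ := by
  set b : ℕ := ⌈Real.exp (2 * Real.log 4 / δ)⌉₊ + 2 with hb
  have hb2 : 2 ≤ b := by omega
  have hbR : (2 : ℝ) ≤ b := by exact_mod_cast hb2
  have hlog4 : 0 < Real.log 4 := Real.log_pos (by norm_num)
  have hlogb : 2 * Real.log 4 / δ ≤ Real.log b := by
    rw [Real.le_log_iff_exp_le (by linarith)]
    calc Real.exp (2 * Real.log 4 / δ) ≤ ⌈Real.exp (2 * Real.log 4 / δ)⌉₊ := Nat.le_ceil _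
      _ ≤ b := by rw [hb]; push_cast; linarith
  have hlogbpos : 0 < Real.log b := Real.log_pos (by linarith)
  have hexp : Real.log 4 / Real.log b ≤ δ / 2 := by
    rw [div_le_iff₀ hlogbpos]
    rw [div_le_iff₀ hδ] at hlogb
    nlinarith
  have hlog : Tendsto (fun d : ℕ => c * Real.log d) atTop atTop :=
    (Real.tendsto_log_atTop.comp tendsto_natCast_atTop_atTop).const_mul_atTop hc
  have hpow : Tendsto (fun d : ℕ => (d : ℝ) ^ (δ / 2)) atTop atTop :=
    (tendsto_rpow_atTop (by linarith)).comp tendsto_natCast_atTop_atTop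
  filter_upwards [hlog.eventually_ge_atTop (2 * (b : ℝ) ^ 2), hpow.eventually_gt_atTop 8,
    eventually_ge_atTop 1] with d h1 h2 h3 P hne hcl hP
  obtain ⟨X, hX, hXc⟩ := general b hb2 d h3 P hne hcl hP
  refine ⟨X, hX.mono h1, lt_of_le_of_lt hXc ?_⟩
  have hdR : (1 : ℝ) ≤ d := by exact_mod_cast h3
  calc 8 * (d : ℝ) ^ (Real.log 4 / Real.log b) ≤ 8 * (d : ℝ) ^ (δ / 2) := by
        apply mul_le_mul_of_nonneg_left _ (by norm_num)
        exact Real.rpow_le_rpow_of_exponent_le hdR hexp
    _ < (d : ℝ) ^ (δ / 2) * (d : ℝ) ^ (δ / 2) := by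
        apply mul_lt_mul_of_pos_right h2
        linarith
    _ = (d : ℝ) ^ δ := by
        rw [← Real.rpow_add (by linarith)]
        congr 1
        ring

theorem isClosed_of_isCoveringPolyhedron {d r : ℕ} {P : Set (Fin d → ℝ)}
    (h : IsCoveringPolyhedron r P) : IsClosed P ∧ ∀ x ∈ P, ∀ i, 0 ≤ x i := by
  obtain ⟨-, A, b, -, -, rfl⟩ := h
  constructor
  · have h1 : {x : Fin d → ℝ | (∀ j, 0 ≤ x j) ∧ ∀ i, b i ≤ ∑ j, A i j * x j} =
        (⋂ j, {x : Fin d → ℝ | 0 ≤ x j}) ∩ ⋂ i, {x : Fin d → ℝ | b i ≤ ∑ j, A i j * x j} := by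
      ext x
      simp
    rw [h1]
    apply IsClosed.inter
    · exact isClosed_iInter (fun j => isClosed_le continuous_const (continuous_apply j))
    · refine isClosed_iInter (fun i => isClosed_le continuous_const ?_)
      exact continuous_finsetSum _ (fun j _ => continuous_const.mul (continuous_apply j))
  · intro x hx
    exact hx.1

/-- For every `c > 0` and `δ > 0`, for all large `d`, every nonempty closed set of nonnegative
vectors has a `(c log d)`-approximate portfolio of size below `d ^ δ`; in particular the answer to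
the question is negative. -/
theorem result :
    (¬ ∀ c : ℝ, 1 ≤ c → ∃ C δ : ℝ, 0 < C ∧ 0 < δ ∧ ∀ᶠ d : ℕ in atTop,
      ∃ r : ℕ, (r : ℝ) ≤ C * Real.log d ∧ ∃ P : Set (Fin d → ℝ), IsCoveringPolyhedron r P ∧
        ∀ X : Finset (Fin d → ℝ), IsPortfolio (c * Real.log d) P X →
          (d : ℝ) ^ δ ≤ X.card) ∧
    (∀ c : ℝ, 0 < c → ∀ δ : ℝ, 0 < δ → ∀ᶠ d : ℕ in atTop, ∀ r : ℕ, ∀ P : Set (Fin d → ℝ),
      IsCoveringPolyhedron r P →
        ∃ X : Finset (Fin d → ℝ), IsPortfolio (c * Real.log d) P X ∧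
          (X.card : ℝ) < (d : ℝ) ^ δ) ∧
    (∀ b : ℕ, 2 ≤ b → ∀ d : ℕ, 1 ≤ d → ∀ P : Set (Fin d → ℝ), P.Nonempty → IsClosed P →
      (∀ x ∈ P, ∀ i, 0 ≤ x i) →
        ∃ X : Finset (Fin d → ℝ), IsPortfolio (2 * (b : ℝ) ^ 2) P X ∧
          (X.card : ℝ) ≤ 8 * (d : ℝ) ^ (Real.log 4 / Real.log b)) := by
  have h2 : ∀ c : ℝ, 0 < c → ∀ δ : ℝ, 0 < δ → ∀ᶠ d : ℕ in atTop, ∀ r : ℕ,
      ∀ P : Set (Fin d → ℝ), IsCoveringPolyhedron r P →
        ∃ X : Finset (Fin d → ℝ), IsPortfolio (c * Real.log d) P X ∧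
          (X.card : ℝ) < (d : ℝ) ^ δ := by
    intro c hc δ hδ
    filter_upwards [eventually_small c hc δ hδ] with d hd r P hP
    obtain ⟨h3, h4⟩ := isClosed_of_isCoveringPolyhedron hP
    exact hd P hP.1 h3 h4
  refine ⟨?_, h2, fun b hb d hd P hne hcl hP => general b hb d hd P hne hcl hP⟩
  intro h
  obtain ⟨C, δ, -, hδ, hev⟩ := h 1 le_rfl
  obtain ⟨d, ⟨r, -, P, hP, hX⟩, hd⟩ := (hev.and (h2 1 one_pos δ hδ)).exists
  obtain ⟨X, hXp, hXc⟩ := hd r P hP
  have := hX X hXp
  linarith

end Pool.Agent.Results.MP_a76361_lc.SmallPortfolio
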